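import Pool.Agent.U588.LBP.Stm

set_option autoImplicit false

/-! Project LB, package BCX: base change of free modules. -/

namespace Pool.Agent.U367.LBP

open Pool.Agent.U588.LBP U722.FF V7N CategoryTheory TensorProduct

variable {G U : Type} [Group G] [Ring U] (c : G →* U)

/-- `r ↦ u * evM c r` -/
noncomputable def mu (u : U) : MonoidAlgebra ℤ G →+ U :=
  (AddMonoidHom.mulLeft u).comp (evM c).toAddMonoidHom

theorem mu_apply (u : U) (r : MonoidAlgebra ℤ G) : mu c u r = u * evM c r := rfl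

/-- the bilinear map -/
noncomputable def bil (X : Type) : U →ₗ[U] (X →₀ MonoidAlgebra ℤ G) →ₗ[ℤ] (X →₀ U) where
  toFun u := (Finsupp.mapRange.addMonoidHom (mu c u)).toIntLinearMap
  map_add' u v := by
    ext x r y
    simp [mu_apply, add_mul]
  map_smul' u v := by
    refine LinearMap.ext fun w => Finsupp.ext fun y => ?_
    show (u * v) * evM c (w y) = u * (v * evM c (w y))
    exact mul_assoc _ _ _

theorem bil_apply (X : Type) (u : U) (v : X →₀ MonoidAlgebra ℤ G) :
    bil c X u v = Finsupp.mapRange (mu c u) (map_zero _) v := rfl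

theorem bil_single (X : Type) (u : U) (x : X) (r : MonoidAlgebra ℤ G) :
    bil c X u (Finsupp.single x r) = Finsupp.single x (u * evM c r) := by
  rw [bil_apply, Finsupp.mapRange_single, mu_apply]

/-- the linear map on the tensor product -/
noncomputable def F (X : Type) : U ⊗[ℤ] (X →₀ MonoidAlgebra ℤ G) →ₗ[U] (X →₀ U) :=
  TensorProduct.AlgebraTensorModule.lift (bil c X)

theorem F_tmul (X : Type) (u : U) (v : X →₀ MonoidAlgebra ℤ G) : F c X (u ⊗ₜ v) = bil c X u v := rfl

theorem evM_single (g : G) : evM c (MonoidAlgebra.single g (1 : ℤ)) = c g := by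
  unfold evM
  simp

theorem F_kills (X : Type) : bcR c (X →₀ MonoidAlgebra ℤ G) ≤ LinearMap.ker (F c X) := by
  unfold bcR
  rw [Submodule.span_le]
  rintro z ⟨x, g, p, rfl⟩
  show F c X _ = 0
  rw [map_sub, F_tmul, F_tmul, sub_eq_zero]
  induction p using Finsupp.induction_linear with
  | zero => rw [map_zero, smul_zero, map_zero]
  | add v w hv hw => rw [map_add, smul_add, map_add, hv, hw]
  | single y r =>
    rw [Finsupp.smul_single, bil_single, bil_single, smul_eq_mul, map_mul, evM_single, mul_assoc]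

/-- the map on the quotient -/
noncomputable def Fq (X : Type) : BCG c (X →₀ MonoidAlgebra ℤ G) →ₗ[U] (X →₀ U) :=
  (bcR c (X →₀ MonoidAlgebra ℤ G)).liftQ (F c X) (F_kills c X)

theorem Fq_mk (X : Type) (z : U ⊗[ℤ] (X →₀ MonoidAlgebra ℤ G)) :
    Fq c X ((bcR c (X →₀ MonoidAlgebra ℤ G)).mkQ z) = F c X z :=
  Submodule.liftQ_apply _ _ _

/-- the inverse -/
noncomputable def K (X : Type) : (X →₀ U) →+ BCG c (X →₀ MonoidAlgebra ℤ G) :=
  Finsupp.liftAddHom fun x => ((bcR c (X →₀ MonoidAlgebra ℤ G)).mkQ.toAddMonoidHom).comp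
    ((TensorProduct.mk ℤ U (X →₀ MonoidAlgebra ℤ G)).flip (Finsupp.single x 1)).toAddMonoidHom

theorem K_single (X : Type) (x : X) (u : U) : K c X (Finsupp.single x u) =
    (bcR c (X →₀ MonoidAlgebra ℤ G)).mkQ (u ⊗ₜ Finsupp.single x 1) := by
  unfold K
  rw [Finsupp.liftAddHom_apply_single]
  rfl

theorem rel (X : Type) (u : U) (g : G) (p : X →₀ MonoidAlgebra ℤ G) :
    (bcR c (X →₀ MonoidAlgebra ℤ G)).mkQ ((u * c g) ⊗ₜ p) =
      (bcR c (X →₀ MonoidAlgebra ℤ G)).mkQ (u ⊗ₜ (MonoidAlgebra.single g (1 : ℤ) • p)) := by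
  rw [← sub_eq_zero, ← map_sub]
  rw [Submodule.mkQ_apply, Submodule.Quotient.mk_eq_zero]
  exact Submodule.subset_span ⟨u, g, p, rfl⟩

theorem key (X : Type) (u : U) (x : X) (r : MonoidAlgebra ℤ G) :
    (bcR c (X →₀ MonoidAlgebra ℤ G)).mkQ ((u * evM c r) ⊗ₜ Finsupp.single x 1) =
      (bcR c (X →₀ MonoidAlgebra ℤ G)).mkQ (u ⊗ₜ Finsupp.single x r) := by
  induction r using MonoidAlgebra.induction_linear with
  | zero => simp
  | add a b ha hb =>
    rw [map_add, mul_add, TensorProduct.add_tmul, map_add, ha, hb, Finsupp.single_add,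
      TensorProduct.tmul_add, map_add]
  | single g n =>
    have h1 : (MonoidAlgebra.single g n : MonoidAlgebra ℤ G) = n • MonoidAlgebra.single g (1 : ℤ) := by
      rw [MonoidAlgebra.smul_single, smul_eq_mul, mul_one]
    rw [h1, map_zsmul, evM_single, mul_smul_comm, ← TensorProduct.smul_tmul', map_zsmul, rel,
      Finsupp.smul_single, smul_eq_mul, mul_one]
    have h2 : (Finsupp.single x (n • MonoidAlgebra.single g (1 : ℤ)) : X →₀ MonoidAlgebra ℤ G) =
        n • Finsupp.single x (MonoidAlgebra.single g (1 : ℤ)) := by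
      rw [Finsupp.smul_single]
    rw [h2, TensorProduct.tmul_smul, map_zsmul]

theorem K_F (X : Type) (z : U ⊗[ℤ] (X →₀ MonoidAlgebra ℤ G)) :
    K c X (F c X z) = (bcR c (X →₀ MonoidAlgebra ℤ G)).mkQ z := by
  induction z using TensorProduct.induction_on with
  | zero => simp
  | add a b ha hb => rw [map_add, map_add, ha, hb, map_add]
  | tmul u v =>
    rw [F_tmul]
    induction v using Finsupp.induction_linear with
    | zero => simp
    | add v w hv hw => rw [map_add, map_add, hv, hw, TensorProduct.tmul_add, map_add]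
    | single x r => rw [bil_single, K_single, key]

theorem F_K (X : Type) (w : X →₀ U) : Fq c X (K c X w) = w := by
  induction w using Finsupp.induction_linear with
  | zero => simp
  | add v w hv hw => rw [map_add, map_add, hv, hw]
  | single x u => rw [K_single, Fq_mk, F_tmul, bil_single, map_one, mul_one]

/-- the isomorphism -/
noncomputable def E (X : Type) : BCG c (X →₀ MonoidAlgebra ℤ G) ≃+ (X →₀ U) where
  toFun := Fq c X
  invFun := K c X
  left_inv z := by
    obtain ⟨z, rfl⟩ := Submodule.mkQ_surjective _ z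
    rw [Fq_mk, K_F]
  right_inv w := F_K c X w
  map_add' := map_add _

theorem E_apply (X : Type) (z : BCG c (X →₀ MonoidAlgebra ℤ G)) : E c X z = Fq c X z := rfl

theorem nat (X Y : Type) (f : X → Y) (z : BCG c (X →₀ MonoidAlgebra ℤ G)) :
    E c Y (bcM c (Finsupp.lmapDomain (MonoidAlgebra ℤ G) (MonoidAlgebra ℤ G) f) z) =
      Finsupp.mapDomain f (E c X z) := by
  obtain ⟨z, rfl⟩ := Submodule.mkQ_surjective _ z
  rw [E_apply, E_apply, Fq_mk]
  have h : bcM c (Finsupp.lmapDomain (MonoidAlgebra ℤ G) (MonoidAlgebra ℤ G) f)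
      ((bcR c (X →₀ MonoidAlgebra ℤ G)).mkQ z) = (bcR c (Y →₀ MonoidAlgebra ℤ G)).mkQ
        (TensorProduct.AlgebraTensorModule.map (LinearMap.id : U →ₗ[U] U)
          (Finsupp.lmapDomain (MonoidAlgebra ℤ G) (MonoidAlgebra ℤ G) f).toAddMonoidHom.toIntLinearMap z) := rfl
  rw [h, Fq_mk]
  induction z using TensorProduct.induction_on with
  | zero => simp
  | add a b ha hb =>
    rw [map_add, map_add, map_add, Finsupp.mapDomain_add, ha rfl, hb rfl]
  | tmul u v =>
    show F c Y (u ⊗ₜ Finsupp.mapDomain f v) = _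
    rw [F_tmul, F_tmul, bil_apply, bil_apply]
    exact (Finsupp.mapDomain_mapRange f v _ _ (map_add (mu c u))).symm

theorem t_BCX : S_BCX := fun _ _ _ _ c => ⟨fun X => E c X, fun X Y f z => nat c X Y f z⟩

end Pool.Agent.U367.LBP
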